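import Mathlib

/-!
The group of finitary automorphisms of the binary rooted tree.
-/

set_option autoImplicit false

namespace Pool.Agent.H6Z.Branch

abbrev V : Type := List (ZMod 2)

/-- finitary automorphisms of the binary tree -/
def G : Subgroup (Equiv.Perm V) where
  carrier := {g | g [] = [] ∧ ∃ a : V → ZMod 2, (Function.support a).Finite ∧
    ∀ b v, g (b :: v) = (b + a v) :: g v}
  one_mem' := ⟨rfl, 0, by simp, by simp⟩
  mul_mem' := by
    rintro g h ⟨g0, a, ha, hg⟩ ⟨h0, c, hc, hh⟩
    refine ⟨by simp [g0, h0], fun v => c v + a (h v), ?_, fun b v => ?_⟩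
    · refine (hc.union (ha.preimage h.injective.injOn)).subset fun v hv => ?_
      by_contra hn
      simp only [Set.mem_union, Function.mem_support, Set.mem_preimage, not_or, not_not] at hn
      exact hv (by simp [hn.1, hn.2])
    · simp [hh, hg, add_assoc]
  inv_mem' := by
    rintro g ⟨g0, a, ha, hg⟩
    refine ⟨?_, fun v => - a (g⁻¹ v), ?_, fun b v => ?_⟩
    · rw [Equiv.Perm.inv_eq_iff_eq]; exact g0.symm
    · refine (ha.preimage (g⁻¹).injective.injOn).subset fun v hv => ?_
      simpa using hv
    · rw [Equiv.Perm.inv_eq_iff_eq, hg, neg_add_cancel_right]; simp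

/-- the portrait -/
def act (g : G) (v : V) : ZMod 2 := ((g : Equiv.Perm V) (0 :: v)).headD 0

theorem smul_def (g : G) (v : V) : g • v = (g : Equiv.Perm V) v := rfl

theorem smul_nil (g : G) : g • ([] : V) = [] := g.2.1

theorem smul_cons (g : G) (b : ZMod 2) (v : V) : g • (b :: v) = (b + act g v) :: g • v := by
  obtain ⟨-, a, -, hg⟩ := g.2
  simp [smul_def, act, hg]

theorem act_finite (g : G) : (Function.support (act g)).Finite := by
  obtain ⟨-, a, ha, hg⟩ := g.2
  have : act g = a := by funext v; simp [act, hg]
  rw [this]; exact ha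

theorem act_mul (g h : G) (v : V) : act (g * h) v = act h v + act g (h • v) := by
  have h1 := smul_cons (g * h) 0 v
  rw [mul_smul, smul_cons, smul_cons] at h1
  simpa using (List.cons.inj h1).1.symm

theorem length_smul (g : G) (v : V) : (g • v).length = v.length := by
  induction v with
  | nil => rw [smul_nil]
  | cons b v ih => rw [smul_cons]; simp [ih]

theorem tail_smul (g : G) (v : V) : (g • v).tail = g • v.tail := by
  cases v with
  | nil => simp [smul_nil]
  | cons b v => rw [smul_cons]; rfl

theorem fix_of (g : G) (w : V) (h : ∀ u, u <:+ w → u.length < w.length → act g u = 0) :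
    g • w = w := by
  induction w with
  | nil => exact smul_nil g
  | cons b v ih =>
    rw [smul_cons, h v (List.suffix_cons b v) (by simp), add_zero, ih]
    intro u hu hl
    exact h u (hu.trans (List.suffix_cons b v)) (by simp; omega)

def fwd (a : V → ZMod 2) : V → V
  | [] => []
  | b :: v => (b + a v) :: fwd a v

def bwd (a : V → ZMod 2) : V → V
  | [] => []
  | b :: v => (b - a (bwd a v)) :: bwd a v

theorem bwd_fwd (a : V → ZMod 2) (v : V) : bwd a (fwd a v) = v := by
  induction v with
  | nil => rfl
  | cons b v ih => simp [fwd, bwd, ih]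

theorem fwd_bwd (a : V → ZMod 2) (v : V) : fwd a (bwd a v) = v := by
  induction v with
  | nil => rfl
  | cons b v ih => simp [fwd, bwd, ih]

/-- the elementary automorphism at the vertex `u` -/
def sw (u : V) (c : ZMod 2) : G :=
  ⟨⟨fwd (Pi.single u c), bwd (Pi.single u c), bwd_fwd _, fwd_bwd _⟩, rfl, Pi.single u c,
    (Set.finite_singleton u).subset (Pi.support_single_subset), fun _ _ => rfl⟩

theorem act_sw (u : V) (c : ZMod 2) : act (sw u c) = Pi.single u c := by
  funext v
  simp [act, sw, fwd]

theorem sw_fix (u : V) (c : ZMod 2) (w : V) (h : w.length ≤ u.length) : sw u c • w = w := by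
  refine fix_of _ _ fun x _ hx => ?_
  rw [act_sw, Pi.single_eq_of_ne]
  rintro rfl
  omega

theorem transitive (v w : V) (h : v.length = w.length) : ∃ g : G, g • v = w := by
  induction v generalizing w with
  | nil => exact ⟨1, by rw [one_smul]; exact (List.length_eq_zero_iff.1 h.symm).symm⟩
  | cons b v ih =>
    cases w with
    | nil => simp at h
    | cons c w =>
      obtain ⟨g, hg⟩ := ih w (by simpa using h)
      refine ⟨sw w (c - (b + act g v)) * g, ?_⟩
      rw [mul_smul, smul_cons, hg, smul_cons, act_sw, sw_fix _ _ _ le_rfl]
      simp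

/-- the level stabilisers -/
def St (n : ℕ) : Subgroup G where
  carrier := {g | ∀ v : V, v.length ≤ n → g • v = v}
  one_mem' := fun v _ => one_smul _ v
  mul_mem' := fun {g h} hg hh v hv => by rw [mul_smul, hh v hv, hg v hv]
  inv_mem' := fun {g} hg v hv => by rw [inv_smul_eq_iff, hg v hv]

theorem mem_St {n : ℕ} {g : G} : g ∈ St n ↔ ∀ v : V, v.length ≤ n → g • v = v := Iff.rfl

instance St_normal (n : ℕ) : (St n).Normal :=
  ⟨fun g hg h v hv => by
    rw [mul_smul, mul_smul, hg _ (by rw [length_smul]; exact hv), smul_inv_smul]⟩

instance St_finiteIndex (n : ℕ) : (St n).FiniteIndex := by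
  have hfin : {v : V | v.length ≤ n}.Finite := List.finite_length_le _ n
  have : St n = ⨅ v ∈ hfin.toFinset, MulAction.stabilizer G v := by
    ext g
    simp [mem_St, Subgroup.mem_iInf]
  rw [this]
  refine Subgroup.finiteIndex_iInf' _ fun v _ => ⟨?_⟩
  rw [MulAction.index_stabilizer]
  refine Set.ncard_ne_zero_of_mem (MulAction.mem_orbit_self v) ?_
  refine (List.finite_length_eq _ v.length).subset ?_
  rintro _ ⟨g, rfl⟩
  exact length_smul g v

theorem act_eq_zero {n : ℕ} {g : G} (hg : g ∈ St n) (v : V) (hv : v.length < n) :
    act g v = 0 := by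
  have := hg (0 :: v) (by simpa using hv)
  rw [smul_cons] at this
  simpa using (List.cons.inj this).1

theorem eq_one_of (g : G) (h : ∀ v : V, g • v = v) : g = 1 := by
  ext v : 2
  exact h v

theorem mem_of_sw (n : ℕ) (H : Subgroup G) (hH : ∀ u c, n ≤ u.length → sw u c ∈ H) (m : ℕ) :
    ∀ g : G, (act_finite g).toFinset.card = m → (∀ v : V, v.length < n → act g v = 0) → g ∈ H := by
  induction m with
  | zero =>
    intro g hc _
    have : g = 1 := eq_one_of g fun v => fix_of g v fun u _ _ => by
      rw [Finset.card_eq_zero] at hc
      by_contra hne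
      have : u ∈ (act_finite g).toFinset := by simpa using hne
      rw [hc] at this
      simp at this
    rw [this]; exact H.one_mem
  | succ m ih =>
    intro g hc hz
    obtain ⟨u, hu, hmax⟩ := Finset.exists_max_image (act_finite g).toFinset List.length
      (Finset.card_pos.1 (by omega))
    have hu' : act g u ≠ 0 := by simpa using hu
    have hun : n ≤ u.length := by
      by_contra hlt
      exact hu' (hz u (by omega))
    have key : ∀ v, act (g * sw u (- act g u)) v = if v = u then 0 else act g v := by
      intro v
      rw [act_mul, act_sw]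
      by_cases hl : v.length ≤ u.length
      · rw [sw_fix _ _ _ hl]
        split_ifs with hvu
        · subst hvu; rw [Pi.single_eq_same, neg_add_cancel]
        · simp [Pi.single_eq_of_ne hvu]
      · have hvu : v ≠ u := by rintro rfl; exact hl le_rfl
        have h0 : ∀ x : V, x.length = v.length → act g x = 0 := fun x hx => by
          by_contra hne
          have := hmax x (by simpa using hne)
          omega
        rw [if_neg hvu, Pi.single_eq_of_ne hvu, h0 _ (length_smul _ _), h0 v rfl, add_zero]
    have h1 : g * sw u (- act g u) ∈ H := by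
      refine ih _ ?_ fun v hv => ?_
      · have : (act_finite (g * sw u (- act g u))).toFinset = (act_finite g).toFinset.erase u := by
          ext v
          simp only [Set.Finite.mem_toFinset, Function.mem_support, key, Finset.mem_erase]
          split_ifs with hvu
          · simp [hvu]
          · simp [hvu]
        rw [this, Finset.card_erase_of_mem hu, hc]; rfl
      · rw [key]; split_ifs
        · rfl
        · exact hz v hv
    have := H.mul_mem h1 (H.inv_mem (hH u (- act g u) hun))
    simpa using this

theorem iterate_tail (k : ℕ) (w : V) : List.tail^[k] w = w.drop k := by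
  induction k generalizing w with
  | zero => rfl
  | succ k ih => rw [Function.iterate_succ_apply, ih]; simp

theorem rist_finiteIndex (n : ℕ) : (Subgroup.closure {g : G | ∃ v : V, v.length = n ∧
    ∀ w : V, (∀ k : ℕ, List.tail^[k] w ≠ v) → g • w = w}).FiniteIndex := by
  refine Subgroup.finiteIndex_of_le (H := St n) fun g hg => ?_
  refine mem_of_sw n _ (fun u c hu => Subgroup.subset_closure ?_) _ g rfl
    (fun v hv => act_eq_zero hg v hv)
  refine ⟨u.drop (u.length - n), by simp; omega, fun w hw => fix_of _ _ fun x hx _ => ?_⟩
  rw [act_sw, Pi.single_eq_of_ne]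
  rintro rfl
  obtain ⟨p, rfl⟩ := hx
  refine hw (p.length + (x.length - n)) ?_
  rw [iterate_tail, List.drop_append]
  simp

open Classical in
/-- the character attached to a set of levels -/
noncomputable def chi (S : Set ℕ) : G →* Multiplicative (ZMod 2) :=
  MonoidHom.mk' (fun g => Multiplicative.ofAdd (∑ᶠ v : V, if v.length ∈ S then act g v else 0))
    (fun g h => by
      rw [← ofAdd_add]
      congr 1
      have hf : ∀ g : G, (Function.support fun v : V =>
          if v.length ∈ S then act g v else 0).Finite := fun g =>
        (act_finite g).subset fun v hv => by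
          by_contra hn
          simp only [Function.mem_support, not_not] at hn
          exact hv (by simp [hn])
      have h1 : (∑ᶠ v : V, if v.length ∈ S then act g v else 0) =
          ∑ᶠ v : V, if v.length ∈ S then act g (h • v) else 0 := by
        rw [← finsum_comp_equiv (h : Equiv.Perm V)]
        refine finsum_congr fun v => ?_
        rw [← smul_def, length_smul]
      have hf2 : (Function.support fun v : V =>
          if v.length ∈ S then act g (h • v) else 0).Finite :=
        ((act_finite g).preimage (h : Equiv.Perm V).injective.injOn).subset fun v hv => by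
          by_contra hn
          simp only [Set.mem_preimage, Function.mem_support, not_not, ← smul_def] at hn
          exact hv (by simp [hn])
      rw [h1, ← finsum_add_distrib hf2 (hf h)]
      refine finsum_congr fun v => ?_
      rw [act_mul]
      split_ifs
      · rw [add_comm]
      · simp)

open Classical in
theorem chi_sw (S : Set ℕ) (u : V) :
    chi S (sw u 1) = Multiplicative.ofAdd (if u.length ∈ S then 1 else 0) := by
  change Multiplicative.ofAdd _ = _
  congr 1
  rw [finsum_eq_single _ u]
  · simp [act_sw]
  · intro v hv
    simp [act_sw, Pi.single_eq_of_ne hv]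

/-- the T-sequences -/
noncomputable def M (a i : ℕ) : Subgroup G := St i ⊓ (chi {n | (Nat.unpair n).1 = a}).ker

theorem M_antitone (a : ℕ) : Antitone (M a) := fun _ _ hij =>
  inf_le_inf_right _ fun _ hg v hv => hg v (hv.trans hij)

theorem M_normal (a i : ℕ) : (M a i).Normal := by unfold M; infer_instance

theorem M_finiteIndex (a i : ℕ) : (M a i).FiniteIndex := by unfold M; infer_instance

theorem M_iInf (a : ℕ) : (⨅ i : ℕ, M a i) = ⊥ := by
  rw [eq_bot_iff]
  intro g hg
  rw [Subgroup.mem_iInf] at hg
  exact Subgroup.mem_bot.2 (eq_one_of g fun v => (hg v.length).1 v le_rfl)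

theorem M_not_le {a b : ℕ} (hab : a ≠ b) (j : ℕ) : ¬ M b j ≤ M a 0 := by
  intro h
  let u : V := List.replicate (Nat.pair a j) 0
  have hu : u.length = Nat.pair a j := by simp [u]
  have h1 : sw u 1 ∈ M b j := by
    refine ⟨fun v hv => sw_fix _ _ _ (hv.trans (hu ▸ Nat.right_le_pair a j)), ?_⟩
    change chi _ _ = 1
    rw [chi_sw, hu]
    simp [hab]
  have h2 : chi _ _ = 1 := (h h1).2
  rw [chi_sw, hu] at h2
  simp at h2

end Pool.Agent.H6Z.Branch
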