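import Mathlib

/-!
A recurrent rotor configuration on the square lattice for the mechanism N, N, E, S, W.
-/

set_option autoImplicit false

namespace Pool.Agent.H6Z.Rotor

def dir : Fin 5 → ℤ × ℤ := ![(0, 1), (0, 1), (1, 0), (0, -1), (-1, 0)]

/-- number of exits in direction `d` among the first `k` exits from a rotor in state `r` -/
def cnt (r : Fin 5) : ℕ → ℤ × ℤ → ℕ
  | 0, _ => 0
  | k + 1, d => cnt r k d + if dir (r + Fin.ofNat 5 (k + 1)) = d then 1 else 0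

theorem cnt_mono (r : Fin 5) (d : ℤ × ℤ) : Monotone fun k => cnt r k d :=
  monotone_nat_of_le_succ fun _ => Nat.le_add_right _ _

theorem cnt_five (r : Fin 5) (d : ℤ × ℤ) (k : ℕ) : cnt r (k + 5) d = cnt r k d + cnt r 5 d := by
  induction k with
  | zero => simp [cnt]
  | succ k ih =>
    have h : Fin.ofNat 5 (k + 5 + 1) = Fin.ofNat 5 (k + 1) := by
      apply Fin.ext; simp only [Fin.ofNat]; omega
    have h1 : cnt r (k + 5 + 1) d = cnt r (k + 5) d +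
      if dir (r + Fin.ofNat 5 (k + 5 + 1)) = d then 1 else 0 := rfl
    have h2 : cnt r (k + 1) d = cnt r k d +
      if dir (r + Fin.ofNat 5 (k + 1)) = d then 1 else 0 := rfl
    rw [show k + 1 + 5 = k + 5 + 1 by ring, h1, ih, h, h2]
    omega

/-- the in-flow of an odometer -/
def inflow (ρ : ℤ × ℤ → Fin 5) (u : ℤ × ℤ → ℕ) (p : ℤ × ℤ) : ℕ :=
  cnt (ρ (p - (0, 1))) (u (p - (0, 1))) (0, 1) + cnt (ρ (p - (1, 0))) (u (p - (1, 0))) (1, 0) +
  cnt (ρ (p - (0, -1))) (u (p - (0, -1))) (0, -1) + cnt (ρ (p - (-1, 0))) (u (p - (-1, 0))) (-1, 0)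

theorem inflow_mono (ρ : ℤ × ℤ → Fin 5) {u v : ℤ × ℤ → ℕ} (h : ∀ p, u p ≤ v p) (p : ℤ × ℤ) :
    inflow ρ u p ≤ inflow ρ v p := by
  unfold inflow
  gcongr <;> exact cnt_mono _ _ (h _)

def step (s : (ℤ × ℤ) × (ℤ × ℤ → Fin 5)) : (ℤ × ℤ) × (ℤ × ℤ → Fin 5) :=
  (s.1 + dir (s.2 s.1 + 1), Function.update s.2 s.1 (s.2 s.1 + 1))

def pos (ρ : ℤ × ℤ → Fin 5) (n : ℕ) : ℤ × ℤ := (step^[n] ((0, 0), ρ)).1

def vis (ρ : ℤ × ℤ → Fin 5) : ℕ → ℤ × ℤ → ℕ
  | 0, _ => 0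
  | n + 1, p => vis ρ n p + if pos ρ n = p then 1 else 0

theorem ofNat_succ (k : ℕ) : Fin.ofNat 5 (k + 1) = Fin.ofNat 5 k + 1 := by
  apply Fin.ext; simp only [Fin.ofNat, Fin.val_add]; omega

theorem rot (ρ : ℤ × ℤ → Fin 5) (n : ℕ) (p : ℤ × ℤ) :
    (step^[n] ((0, 0), ρ)).2 p = ρ p + Fin.ofNat 5 (vis ρ n p) := by
  induction n with
  | zero => simp [vis]
  | succ n ih =>
    rw [Function.iterate_succ_apply', vis]
    by_cases h : pos ρ n = p
    · rw [if_pos h, ofNat_succ, ← add_assoc, ← ih, ← h]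
      simp [step, pos]
    · rw [if_neg h, add_zero, ← ih]
      exact Function.update_of_ne (Ne.symm h) _ _

theorem pos_succ (ρ : ℤ × ℤ → Fin 5) (n : ℕ) :
    pos ρ (n + 1) = pos ρ n + dir (ρ (pos ρ n) + Fin.ofNat 5 (vis ρ n (pos ρ n) + 1)) := by
  rw [ofNat_succ, ← add_assoc, ← rot, pos, Function.iterate_succ_apply']
  rfl

theorem cnt_vis (ρ : ℤ × ℤ → Fin 5) (n : ℕ) (p d : ℤ × ℤ) :
    cnt (ρ (p - d)) (vis ρ (n + 1) (p - d)) d = cnt (ρ (p - d)) (vis ρ n (p - d)) d +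
      if pos ρ (n + 1) = p ∧ pos ρ (n + 1) - pos ρ n = d then 1 else 0 := by
  rw [vis]
  by_cases h : pos ρ n = p - d
  · rw [if_pos h, cnt, pos_succ, h]
    congr 1
    refine if_congr ⟨fun h1 => ?_, fun h1 => ?_⟩ rfl rfl
    · rw [h1]; simp
    · simpa using h1.2
  · rw [if_neg h, add_zero, if_neg, add_zero]
    rintro ⟨h1, h2⟩
    exact h (by rw [← h1, ← h2]; simp)

theorem flow (ρ : ℤ × ℤ → Fin 5) (n : ℕ) (p : ℤ × ℤ) :
    inflow ρ (vis ρ n) p + (if (0, 0) = p then 1 else 0) = vis ρ (n + 1) p := by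
  induction n with
  | zero => simp [inflow, vis, cnt, pos]
  | succ n ih =>
    rw [vis, ← ih]
    unfold inflow
    rw [cnt_vis, cnt_vis, cnt_vis, cnt_vis]
    have hd : pos ρ (n + 1) - pos ρ n = (0, 1) ∨ pos ρ (n + 1) - pos ρ n = (1, 0) ∨
        pos ρ (n + 1) - pos ρ n = (0, -1) ∨ pos ρ (n + 1) - pos ρ n = (-1, 0) := by
      rw [pos_succ, add_sub_cancel_left]
      generalize ρ (pos ρ n) + Fin.ofNat 5 (vis ρ n (pos ρ n) + 1) = i
      revert i; decide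
    by_cases h : pos ρ (n + 1) = p
    · rcases hd with hd | hd | hd | hd <;> rw [hd] <;> simp [h] <;> omega
    · simp [h]

theorem least_action (ρ : ℤ × ℤ → Fin 5)
    (h : ∀ K : ℕ, ∃ (u : ℤ × ℤ → ℕ) (T : Finset (ℤ × ℤ)), K ≤ u (0, 0) ∧ (∀ p ∉ T, u p = 0) ∧
      ∀ p, inflow ρ u p = u p) : ¬ Set.Finite {n : ℕ | pos ρ n = (0, 0)} := by
  intro hfin
  obtain ⟨K, hK⟩ := hfin.bddAbove
  have h0 : ∀ n, vis ρ n (0, 0) ≤ min n (K + 1) := by
    intro n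
    induction n with
    | zero => simp [vis]
    | succ n ih =>
      rw [vis]
      split_ifs with h1
      · have : n ≤ K := hK h1
        omega
      · omega
  obtain ⟨u, T, h1, h2, h3⟩ := h (K + 1)
  have hle : ∀ n p, vis ρ n p ≤ u p := by
    intro n
    induction n with
    | zero => intro p; simp [vis]
    | succ n ih =>
      intro p
      by_cases hp : (0, 0) = p
      · subst hp
        exact ((h0 _).trans (min_le_right _ _)).trans h1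
      · rw [← flow, if_neg hp, add_zero, ← h3]
        exact inflow_mono ρ ih p
  have hsum : ∀ n, ∑ p ∈ T, vis ρ n p = n := by
    intro n
    induction n with
    | zero => simp [vis]
    | succ n ih =>
      have hT : pos ρ n ∈ T := by
        by_contra hn
        have := hle (n + 1) (pos ρ n)
        rw [h2 _ hn, vis, if_pos rfl] at this
        omega
      simp only [vis, Finset.sum_add_distrib, ih]
      rw [Finset.sum_ite_eq, if_pos hT]
  have := hsum (∑ p ∈ T, u p + 1)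
  have h4 : ∑ p ∈ T, vis ρ (∑ p ∈ T, u p + 1) p ≤ ∑ p ∈ T, u p :=
    Finset.sum_le_sum fun p _ => hle _ p
  omega

/-- rectangles -/
structure Box where
  l : ℤ
  r : ℤ
  b : ℤ
  t : ℤ

namespace Box

variable (B : Box)

abbrev In (x y : ℤ) : Prop := B.l ≤ x ∧ x < B.r ∧ B.b ≤ y ∧ y < B.t

abbrev cE (x y : ℤ) : Prop := (B.l ≤ x ∧ x < B.r ∧ B.b ≤ y ∧ y ≤ B.t) ∨
  (x = B.l - 1 ∧ B.b ≤ y ∧ y < B.t) ∨
  (B.t < y ∧ y - B.t < B.r - B.l ∧ B.r - (y - B.t) ≤ x ∧ x < B.r + (y - B.t))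

abbrev cS (x y : ℤ) : Prop := (B.l ≤ x ∧ x < B.r ∧ B.b ≤ y ∧ y ≤ B.t) ∨
  (B.r ≤ x ∧ x - B.r < B.r - B.l ∧ B.b - (x - B.r) ≤ y ∧ y ≤ B.t + (x - B.r))

abbrev cW (x y : ℤ) : Prop := (B.l ≤ x ∧ x ≤ B.r ∧ B.b ≤ y ∧ y < B.t) ∨
  (y ≤ B.b - 1 ∧ B.b - 1 - y < B.r - B.l ∧ B.r - (B.b - 1 - y) ≤ x ∧ x ≤ B.r + (B.b - 1 - y))

abbrev cN2 (x y : ℤ) : Prop := B.l ≤ x ∧ x < B.r ∧ B.b - 1 ≤ y ∧ y < B.t

abbrev cN1 (x y : ℤ) : Prop := (B.t ≤ y ∧ B.l < x ∧ x < B.r - (y - B.t)) ∨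
  (y < B.b - 1 ∧ B.l ≤ x ∧ x < B.r - (B.b - 1 - y))

def nN (x y : ℤ) : ℕ := if B.cN2 x y then 2 else if B.cN1 x y then 1 else 0
def nE (x y : ℤ) : ℕ := if B.cE x y then 1 else 0
def nS (x y : ℤ) : ℕ := if B.cS x y then 1 else 0
def nW (x y : ℤ) : ℕ := if B.cW x y then 1 else 0
def c (x y : ℤ) : ℕ := B.nN x y + B.nE x y + B.nS x y + B.nW x y

def rho (x y : ℤ) : Fin 5 :=
  if B.cN2 x y then 4 else if B.cN1 x y then 0 else if B.cE x y then 1 else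
    if B.cS x y then 2 else 3

def next : Box := ⟨B.l - 1, B.r + (B.r - B.l), B.b - (B.r - B.l), B.t + (B.r - B.l)⟩

def psi (x y : ℤ) : ℤ := max 0 (min (min (x - B.l + if y < B.t then 1 else 0)
  (B.r - B.l - 1 - (x - B.r))) (min (B.r - B.l - 1 - (y - B.t)) (B.r - B.l - (B.b - 1 - y))))

theorem lemV (h1 : B.l < B.r) (h2 : B.b < B.t) (x y : ℤ) :
    (B.nN x y : ℤ) - B.nS x (y + 1) = B.psi x y - B.psi (x - 1) y := by
  unfold nN nS psi
  split_ifs <;> omega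

theorem lemH (h1 : B.l < B.r) (h2 : B.b < B.t) (x y : ℤ) :
    (B.nE x y : ℤ) - B.nW (x + 1) y = B.psi x (y - 1) - B.psi x y := by
  unfold nE nW psi
  split_ifs <;> omega

theorem balance (h1 : B.l < B.r) (h2 : B.b < B.t) (x y : ℤ) :
    B.nN x (y - 1) + B.nE (x - 1) y + B.nS x (y + 1) + B.nW (x + 1) y = B.c x y := by
  have a1 := B.lemV h1 h2 x y
  have a2 := B.lemV h1 h2 x (y - 1)
  have a3 := B.lemH h1 h2 x y
  have a4 := B.lemH h1 h2 (x - 1) y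
  rw [sub_add_cancel] at a2 a4
  unfold c
  omega

theorem real (h1 : B.l < B.r) (h2 : B.b < B.t) (x y : ℤ) :
    cnt (B.rho x y) (B.c x y) (0, 1) = B.nN x y ∧ cnt (B.rho x y) (B.c x y) (1, 0) = B.nE x y ∧
    cnt (B.rho x y) (B.c x y) (0, -1) = B.nS x y ∧
    cnt (B.rho x y) (B.c x y) (-1, 0) = B.nW x y := by
  unfold c rho nN nE nS nW
  split_ifs <;> first | decide | omega

theorem inside {x y : ℤ} (h : B.In x y) :
    B.c x y = 5 ∧ B.nN x y = 2 ∧ B.nE x y = 1 ∧ B.nS x y = 1 ∧ B.nW x y = 1 := by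
  unfold c nN nE nS nW
  split_ifs <;> omega

theorem outside (h1 : B.l < B.r) (h2 : B.b < B.t) {x y : ℤ} (h : ¬ B.next.In x y) :
    B.c x y = 0 ∧ B.nN x y = 0 ∧ B.nE x y = 0 ∧ B.nS x y = 0 ∧ B.nW x y = 0 := by
  simp only [In, next] at h
  unfold c nN nE nS nW
  split_ifs <;> omega

end Box

def sq : ℕ → Box
  | 0 => ⟨0, 1, 0, 1⟩
  | n + 1 => (sq n).next

theorem sq_ok (n : ℕ) : (sq n).l < (sq n).r ∧ (sq n).b < (sq n).t := by
  induction n with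
  | zero => simp [sq]
  | succ n ih => simp only [sq, Box.next]; omega

theorem sq_mono {m n : ℕ} (h : m ≤ n) {x y : ℤ} (hm : (sq m).In x y) : (sq n).In x y := by
  induction h with
  | refl => exact hm
  | @step k _ ih =>
    have := sq_ok k
    simp only [sq, Box.next, Box.In] at ih ⊢
    omega

open Classical in
noncomputable def ρ (p : ℤ × ℤ) : Fin 5 :=
  if h : ∃ n, (sq (n + 1)).In p.1 p.2 then (sq (Nat.find h)).rho p.1 p.2 else 0

def U : ℕ → ℤ × ℤ → ℕ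
  | 0, _ => 0
  | n + 1, p => U n p + (sq n).c p.1 p.2

theorem U_out (n : ℕ) (p : ℤ × ℤ) (h : ¬ (sq n).In p.1 p.2) : U n p = 0 := by
  induction n with
  | zero => rfl
  | succ n ih =>
    rw [U, ih fun h' => h (sq_mono (Nat.le_succ n) h'),
      ((sq n).outside (sq_ok n).1 (sq_ok n).2 h).1]

theorem U_zero (n : ℕ) : U n (0, 0) = 5 * n := by
  induction n with
  | zero => rfl
  | succ n ih =>
    rw [U, ih, ((sq n).inside (sq_mono (Nat.zero_le n) (by simp [sq, Box.In]))).1]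
    ring

theorem cnt_U (n : ℕ) (p : ℤ × ℤ) :
    cnt (ρ p) (U (n + 1) p) (0, 1) = cnt (ρ p) (U n p) (0, 1) + (sq n).nN p.1 p.2 ∧
    cnt (ρ p) (U (n + 1) p) (1, 0) = cnt (ρ p) (U n p) (1, 0) + (sq n).nE p.1 p.2 ∧
    cnt (ρ p) (U (n + 1) p) (0, -1) = cnt (ρ p) (U n p) (0, -1) + (sq n).nS p.1 p.2 ∧
    cnt (ρ p) (U (n + 1) p) (-1, 0) = cnt (ρ p) (U n p) (-1, 0) + (sq n).nW p.1 p.2 := by
  rw [U]
  by_cases h : (sq n).In p.1 p.2
  · obtain ⟨h1, h2, h3, h4, h5⟩ := (sq n).inside h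
    rw [h1, h2, h3, h4, h5, cnt_five _ _ (U n p), cnt_five _ _ (U n p), cnt_five _ _ (U n p),
      cnt_five _ _ (U n p)]
    have : ∀ r : Fin 5, cnt r 5 (0, 1) = 2 ∧ cnt r 5 (1, 0) = 1 ∧ cnt r 5 (0, -1) = 1 ∧
        cnt r 5 (-1, 0) = 1 := by decide
    obtain ⟨k1, k2, k3, k4⟩ := this (ρ p)
    rw [k1, k2, k3, k4]
    exact ⟨rfl, rfl, rfl, rfl⟩
  · rw [U_out n p h]
    simp only [cnt, zero_add]
    by_cases h' : (sq (n + 1)).In p.1 p.2
    · have hρ : ρ p = (sq n).rho p.1 p.2 := by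
        have hex : ∃ n, (sq (n + 1)).In p.1 p.2 := ⟨n, h'⟩
        have : Nat.find hex = n := by
          rw [Nat.find_eq_iff]
          exact ⟨h', fun m hm hin => h (sq_mono hm hin)⟩
        rw [ρ, dif_pos hex]
        convert rfl
        convert this.symm
      rw [hρ]
      exact (sq n).real (sq_ok n).1 (sq_ok n).2 _ _
    · obtain ⟨h1, h2, h3, h4, h5⟩ := (sq n).outside (sq_ok n).1 (sq_ok n).2 h'
      rw [h1, h2, h3, h4, h5]
      exact ⟨rfl, rfl, rfl, rfl⟩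

theorem U_balanced (n : ℕ) (p : ℤ × ℤ) : inflow ρ (U n) p = U n p := by
  induction n with
  | zero => simp [inflow, U, cnt]
  | succ n ih =>
    unfold inflow at ih ⊢
    rw [(cnt_U n _).1, (cnt_U n _).2.1, (cnt_U n _).2.2.1, (cnt_U n _).2.2.2, U, ← ih,
      ← (sq n).balance (sq_ok n).1 (sq_ok n).2]
    simp only [Prod.fst_sub, Prod.snd_sub, sub_zero, sub_neg_eq_add]
    ring

theorem recurrent : ¬ Set.Finite {n : ℕ | pos ρ n = (0, 0)} :=
  least_action ρ fun K => ⟨U K, Finset.Ico (sq K).l (sq K).r ×ˢ Finset.Ico (sq K).b (sq K).t,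
    by rw [U_zero]; omega, fun p hp => U_out K p (by
      simp only [Finset.mem_product, Finset.mem_Ico] at hp
      simp only [Box.In]
      omega), U_balanced K⟩

end Pool.Agent.H6Z.Rotor
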